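import Pool.Agent.R229.MT.Stm
import Pool.Agent.R364.MS.M3

/-! Piece MT-HOM of the project MT: Maharam homogeneous measures. -/

set_option autoImplicit false

namespace Pool.Agent.R229.MT

open MeasureTheory Filter Topology Set Pool.Agent.R229.MS
open scoped InnerProductSpace ENNReal NNReal Cardinal

universe u

/-- The infimum in the Maharam type is attained. -/
lemma genBy_mtype {X : Type u} [m0 : MeasurableSpace X] (μ : Measure X) (C : Set X) :
    GenBy μ C (mtype μ C) := by
  have hne : {κ : Cardinal.{u} | GenBy μ C κ}.Nonempty := by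
    refine ⟨#({A : Set X | MeasurableSet A} : Set (Set X)), {A : Set X | MeasurableSet A},
      fun A hA => hA, le_rfl, fun D hD => ?_⟩
    exact ⟨D, MeasurableSpace.measurableSet_generateFrom hD, Filter.EventuallyEq.rfl⟩
  exact csInf_mem hne

lemma mtype_le {X : Type u} [m0 : MeasurableSpace X] {μ : Measure X} {C : Set X}
    {κ : Cardinal.{u}} (h : GenBy μ C κ) : mtype μ C ≤ κ := csInf_le' h

/-- If `F` generates on a nonnull part of `C` then the part has small Maharam type. -/
lemma genBy_of_not_nowhere {X : Type u} [m0 : MeasurableSpace X] {μ : Measure X} {C : Set X}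
    (hC : MeasurableSet C) {F : Set (Set X)} (hF : ∀ A ∈ F, MeasurableSet A)
    (h : ¬ NowhereGen (μ.restrict C) F) :
    ∃ D : Set X, MeasurableSet D ∧ μ (C ∩ D) ≠ 0 ∧ GenBy μ (C ∩ D) #F := by
  unfold NowhereGen at h
  push Not at h
  obtain ⟨D, hD, hD0, hDg⟩ := h
  refine ⟨D, hD, ?_, F, hF, le_rfl, ?_⟩
  · rw [Measure.restrict_apply hD, inter_comm] at hD0
    exact hD0
  · intro D' hD'
    obtain ⟨E, hE, hDE⟩ := hDg (D' ∩ D) (hD'.inter hD) inter_subset_right
    refine ⟨E, hE, ?_⟩
    have hae := R364.MS.ae_restrict_diff hC hDE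
    have : ∀ᵐ x ∂(μ.restrict (C ∩ D)), (x ∈ D' ↔ x ∈ E) := by
      rw [ae_restrict_iff' (hC.inter hD)]
      filter_upwards [hae] with x hx hmem
      have := hx hmem.1
      simp only [mem_inter_iff, hmem.2, and_true] at this
      exact this
    filter_upwards [this] with x hx
    exact propext hx

/-- Every nonnull set of finite measure of a Maharam homogeneous measure of infinite type is a
Bernoulli piece. -/
theorem bern_of_homog (h : StmtRec.{u}) {X : Type u} [m0 : MeasurableSpace X] (μ : Measure X)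
    (κ : Cardinal.{u}) (hκ : ℵ₀ ≤ κ)
    (hom : ∀ C : Set X, MeasurableSet C → μ C ≠ 0 → μ C ≠ ∞ → mtype μ C = κ)
    (C : Set X) (hC : MeasurableSet C) (h0 : μ C ≠ 0) (hf : μ C ≠ ∞) :
    ∃ (Ξ : Type u) (A : Ξ → Set X), Bern μ C A := by
  haveI : IsFiniteMeasure (μ.restrict C) := ⟨by
    rw [Measure.restrict_apply_univ]; exact lt_top_iff_ne_top.2 hf⟩
  have hnow : ∀ F : Set (Set X), (∀ A ∈ F, MeasurableSet A) → #F < κ →
      NowhereGen (μ.restrict C) F := by
    intro F hFm hFκ
    by_contra hcon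
    obtain ⟨D, hD, hD0, hg⟩ := genBy_of_not_nowhere hC hFm hcon
    have h1 := hom (C ∩ D) (hC.inter hD) hD0
      (ne_top_of_le_ne_top hf (measure_mono inter_subset_left))
    have h2 := mtype_le hg
    rw [h1] at h2
    exact absurd h2 (not_le.2 hFκ)
  obtain ⟨F0, hF0m, hF0c, hF0g⟩ := genBy_mtype μ C
  rw [hom C hC h0 hf] at hF0c
  obtain ⟨Ξ, A, hinf, hAm, horth, hgen⟩ := h X (μ.restrict C) κ hκ hnow F0 hF0m hF0c hF0g
  exact ⟨Ξ, A, ⟨hC, h0, hf, hinf, hAm, horth, hgen⟩⟩

/-- Piece MT-HOM. -/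
theorem stmtHom (h : StmtRec.{u}) (hP : StmtPiece.{u}) : StmtHom.{u} := by
  intro X m0 μ κ hκ hom C hC hf
  by_cases h0 : μ C = 0
  · have hz : indicatorConstLp 2 hC hf (1 : ℂ) = 0 := by
      rw [← Lp.norm_eq_zero_iff (by norm_num), norm_indicatorConstLp (by norm_num) (by norm_num),
        Measure.real, h0]
      norm_num
    have hrk : rk (indicatorConstLp 2 hC hf (1 : ℂ)) (indicatorConstLp 2 hC hf (1 : ℂ)) = 0 := by
      rw [hz]
      ext x
      simp [rk]
    rw [hrk]
    exact zero_mem _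
  · obtain ⟨Ξ, A, hB⟩ := bern_of_homog h μ κ hκ hom C hC h0 hf
    exact hP X μ C hC hf Ξ A hB

end Pool.Agent.R229.MT
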