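import Pool.Agent.R229.MS.Stm

/-! Piece MS-R of the project MS: the transfinite construction. -/

set_option autoImplicit false

namespace Pool.Agent.R229.MS

open MeasureTheory Filter Topology Set
open scoped InnerProductSpace ENNReal NNReal Cardinal

universe u

namespace Rec

/-- The property of the one step lemma. -/
def StepP {X : Type u} [m0 : MeasurableSpace X] (ν : Measure X) (F : Set (Set X))
    (a A : Set X) : Prop :=
  (ν[A.indicator (fun _ => (1 : ℝ)) | MeasurableSpace.generateFrom F] =ᵐ[ν] fun _ => 1 / 2) ∧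
    und ν (insert A F) a ≤ und ν F a / 2

open Classical in
/-- The chosen set of the one step lemma. -/
noncomputable def st {X : Type u} [m0 : MeasurableSpace X] (ν : Measure X) (F : Set (Set X))
    (a : Set X) : Set X :=
  if h : ∃ A : Set X, MeasurableSet A ∧ StepP ν F a A then h.choose else ∅

lemma st_meas {X : Type u} [m0 : MeasurableSpace X] (ν : Measure X) (F : Set (Set X))
    (a : Set X) : MeasurableSet (st ν F a) := by
  unfold st
  split_ifs with h
  · exact h.choose_spec.1
  · exact MeasurableSet.empty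

lemma st_spec {X : Type u} [m0 : MeasurableSpace X] {ν : Measure X} {F : Set (Set X)}
    {a : Set X} (h : ∃ A : Set X, MeasurableSet A ∧ StepP ν F a A) :
    StepP ν F a (st ν F a) := by
  unfold st
  rw [dif_pos h]
  exact h.choose_spec.2

/-- The transfinite family. -/
noncomputable def fam {X : Type u} [m0 : MeasurableSpace X] (ν : Measure X) {Ξ : Type u}
    [LinearOrder Ξ] [WellFoundedLT Ξ] (c : Ξ → Set X) : Ξ → Set X :=
  (wellFounded_lt (α := Ξ)).fix fun ξ ih => st ν {B | ∃ η, ∃ h : η < ξ, ih η h = B} (c ξ)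

lemma fam_eq {X : Type u} [m0 : MeasurableSpace X] (ν : Measure X) {Ξ : Type u}
    [LinearOrder Ξ] [WellFoundedLT Ξ] (c : Ξ → Set X) (ξ : Ξ) :
    fam ν c ξ = st ν (fam ν c '' Iio ξ) (c ξ) := by
  conv_lhs => rw [fam, WellFounded.fix_eq]
  congr 1
  ext B
  constructor
  · rintro ⟨η, h, rfl⟩
    exact ⟨η, h, rfl⟩
  · rintro ⟨η, h, rfl⟩
    exact ⟨η, h, rfl⟩

lemma fam_meas {X : Type u} [m0 : MeasurableSpace X] (ν : Measure X) {Ξ : Type u}
    [LinearOrder Ξ] [WellFoundedLT Ξ] (c : Ξ → Set X) (ξ : Ξ) :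
    MeasurableSet (fam ν c ξ) := by
  rw [fam_eq]
  exact st_meas _ _ _

lemma sg_eq {X : Type u} (A : Set X) (x : X) :
    sg A x = 1 - 2 * A.indicator (fun _ => (1 : ℝ)) x := by
  unfold sg
  by_cases h : x ∈ A
  · rw [if_pos h, Set.indicator_of_mem h]
    norm_num
  · rw [if_neg h, Set.indicator_of_notMem h]
    norm_num

lemma abs_sg {X : Type u} (A : Set X) (x : X) : |sg A x| = 1 := by
  unfold sg
  split_ifs <;> norm_num

lemma sg_measurable {X : Type u} {m : MeasurableSpace X} {A : Set X}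
    (hA : MeasurableSet[m] A) : Measurable[m] (sg A) := by
  have : sg A = fun x => 1 - 2 * A.indicator (fun _ => (1 : ℝ)) x := funext (sg_eq A)
  rw [this]
  exact measurable_const.sub (measurable_const.mul (measurable_const.indicator hA))

lemma walsh_measurable {X Ξ : Type u} {m : MeasurableSpace X} (A : Ξ → Set X) (S : Finset Ξ)
    (h : ∀ i ∈ S, MeasurableSet[m] (A i)) : Measurable[m] (walsh A S) := by
  have : walsh A S = fun x => ∏ i ∈ S, sg (A i) x := rfl
  rw [this]
  exact Finset.measurable_fun_prod _ fun i hi => sg_measurable (h i hi)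

lemma abs_walsh {X Ξ : Type u} (A : Ξ → Set X) (S : Finset Ξ) (x : X) :
    |walsh A S x| = 1 := by
  unfold walsh
  rw [Finset.abs_prod]
  exact Finset.prod_eq_one fun i _ => abs_sg _ _

lemma integral_zero {X : Type u} [m0 : MeasurableSpace X] {ν : Measure X} [IsFiniteMeasure ν]
    {m : MeasurableSpace X} (hm : m ≤ m0) {A : Set X} (hA : MeasurableSet[m0] A)
    (h : ν[A.indicator (fun _ => (1 : ℝ)) | m] =ᵐ[ν] fun _ => 1 / 2) {w : X → ℝ}
    (hw : Measurable[m] w) (hb : ∀ x, |w x| ≤ 1) :
    ∫ x, sg A x * w x ∂ν = 0 := by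
  have hw0 : Measurable[m0] w := hw.mono hm le_rfl
  have hiw : Integrable w ν :=
    Integrable.of_bound hw0.aestronglyMeasurable 1 (ae_of_all _ hb)
  have hiA : Integrable (A.indicator (fun _ => (1 : ℝ))) ν := (integrable_const 1).indicator hA
  have hiAw : Integrable (w * A.indicator (fun _ => (1 : ℝ))) ν := by
    refine Integrable.of_bound
      (hw0.aestronglyMeasurable.mul hiA.aestronglyMeasurable) 1 (ae_of_all _ fun x => ?_)
    rw [Pi.mul_apply, norm_mul, Real.norm_eq_abs, Real.norm_eq_abs]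
    have h2 : |A.indicator (fun _ => (1 : ℝ)) x| ≤ 1 := by
      by_cases hx : x ∈ A
      · rw [Set.indicator_of_mem hx]
        norm_num
      · rw [Set.indicator_of_notMem hx]
        norm_num
    calc |w x| * |A.indicator (fun _ => (1 : ℝ)) x| ≤ 1 * 1 :=
          mul_le_mul (hb x) h2 (abs_nonneg _) zero_le_one
      _ = 1 := one_mul 1
  have h1 : ν[w * A.indicator (fun _ => (1 : ℝ)) | m] =ᵐ[ν]
      w * ν[A.indicator (fun _ => (1 : ℝ)) | m] :=
    condExp_mul_of_stronglyMeasurable_left hw.stronglyMeasurable hiAw hiA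
  have h2 : ∫ x, (w * A.indicator (fun _ => (1 : ℝ))) x ∂ν = ∫ x, w x * (1 / 2) ∂ν := by
    rw [← integral_condExp hm]
    refine integral_congr_ae ?_
    filter_upwards [h1, h] with x hx hx'
    rw [hx, Pi.mul_apply, hx']
  have h3 : (fun x => sg A x * w x) =
      fun x => w x - 2 * (w * A.indicator (fun _ => (1 : ℝ))) x := by
    funext x
    rw [sg_eq, Pi.mul_apply]
    ring
  rw [h3, integral_sub hiw (hiAw.const_mul 2), integral_const_mul, h2, integral_mul_const]
  ring

/-- If the set where `a` is undetermined is null then `a` is a.e. equal to a measurable set. -/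
lemma exists_of_und_zero {X : Type u} [m0 : MeasurableSpace X] {ν : Measure X}
    [IsFiniteMeasure ν] {G : Set (Set X)} (hG : ∀ A ∈ G, MeasurableSet A) {a : Set X}
    (ha : MeasurableSet a) (h : und ν G a = 0) :
    ∃ E : Set X, MeasurableSet[MeasurableSpace.generateFrom G] E ∧ a =ᵐ[ν] E := by
  have hm : MeasurableSpace.generateFrom G ≤ m0 := MeasurableSpace.generateFrom_le hG
  set m := MeasurableSpace.generateFrom G with hmdef
  set e : X → ℝ := ν[a.indicator (fun _ => (1 : ℝ)) | m] with he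
  have hia : Integrable (a.indicator (fun _ => (1 : ℝ))) ν := (integrable_const 1).indicator ha
  have hem : Measurable[m] e := stronglyMeasurable_condExp.measurable
  have hE : MeasurableSet[m] {x | 1 ≤ e x} := @measurableSet_le _ _ _ _ _ m _ _ _ _ _
    measurable_const hem
  have h0 : ∀ᵐ x ∂ν, ¬ (0 < e x ∧ e x < 1) := by
    have : ν {x | 0 < e x ∧ e x < 1} = 0 := h
    rw [ae_iff]
    simpa using this
  have hpos : ∀ᵐ x ∂ν, 0 ≤ e x := by
    refine condExp_nonneg (ae_of_all _ fun x => ?_)
    exact Set.indicator_nonneg (fun _ _ => zero_le_one) x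
  have hle : ∀ᵐ x ∂ν, e x ≤ 1 := by
    have h1 : e ≤ᵐ[ν] ν[(fun _ => (1 : ℝ)) | m] := by
      refine condExp_mono hia (integrable_const 1) (ae_of_all _ fun x => ?_)
      exact Set.indicator_le_self' (fun _ _ => zero_le_one) x
    rw [condExp_const hm] at h1
    exact h1
  refine ⟨{x | 1 ≤ e x}, hE, ?_⟩
  have hval : ∀ᵐ x ∂ν, e x = ({x | 1 ≤ e x} : Set X).indicator (fun _ => (1 : ℝ)) x := by
    filter_upwards [h0, hpos, hle] with x h1 h2 h3
    by_cases hx : 1 ≤ e x
    · rw [Set.indicator_of_mem (show x ∈ {x | 1 ≤ e x} from hx)]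
      exact le_antisymm h3 hx
    · rw [Set.indicator_of_notMem (show x ∉ {x | 1 ≤ e x} from hx)]
      by_contra h4
      exact h1 ⟨lt_of_le_of_ne h2 (Ne.symm h4), not_le.1 hx⟩
  -- measure of the differences
  have key1 : ∫ x in {x | 1 ≤ e x}, a.indicator (fun _ => (1 : ℝ)) x ∂ν =
      ∫ x in {x | 1 ≤ e x}, (1 : ℝ) ∂ν := by
    rw [← setIntegral_condExp hm hia hE]
    refine setIntegral_congr_ae (hm _ hE) ?_
    filter_upwards [hval] with x hx hx'
    rw [← he, hx, Set.indicator_of_mem (show x ∈ {x | 1 ≤ e x} from hx')]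
  have key2 : ∫ x in {x | 1 ≤ e x}ᶜ, a.indicator (fun _ => (1 : ℝ)) x ∂ν = 0 := by
    rw [← setIntegral_condExp hm hia hE.compl]
    have h6 : ∫ x in {x | 1 ≤ e x}ᶜ, e x ∂ν = ∫ x in {x | 1 ≤ e x}ᶜ, (0 : ℝ) ∂ν := by
      refine setIntegral_congr_ae (hm _ hE).compl ?_
      filter_upwards [hval] with x hx hx'
      rw [hx, Set.indicator_of_notMem (show x ∉ {x | 1 ≤ e x} from hx')]
    rw [← he, h6]
    simp
  have hE0 : MeasurableSet[m0] {x | 1 ≤ e x} := hm _ hE
  have e1 : ν.real (a ∩ {x | 1 ≤ e x}) = ν.real {x | 1 ≤ e x} := by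
    have := key1
    rw [setIntegral_indicator ha, setIntegral_const, setIntegral_const] at this
    rw [inter_comm]
    simpa using this
  have e2 : ν.real ({x | 1 ≤ e x}ᶜ ∩ a) = 0 := by
    have := key2
    rw [setIntegral_indicator ha, setIntegral_const] at this
    simpa using this
  have e3 : ν ({x | 1 ≤ e x}ᶜ ∩ a) = 0 := by
    rwa [measureReal_eq_zero_iff] at e2
  have e4 : ν ({x | 1 ≤ e x} \ a) = 0 := by
    have h5 : ν.real ({x | 1 ≤ e x} \ a) = 0 := by
      have := measureReal_inter_add_sdiff (μ := ν) (s := {x | 1 ≤ e x}) ha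
      rw [inter_comm] at this
      linarith
    rwa [measureReal_eq_zero_iff] at h5
  rw [ae_eq_set]
  refine ⟨?_, e4⟩
  rw [sdiff_eq, inter_comm]
  exact e3

/-- The undetermined part of a set which is visited at least `T.card` times. -/
lemma und_le {X : Type u} [m0 : MeasurableSpace X] {ν : Measure X} [IsFiniteMeasure ν]
    (hmono : StmtUndMono.{u}) {Ξ : Type u} [LinearOrder Ξ] (A : Ξ → Set X)
    (hA : ∀ i, MeasurableSet (A i)) {a : Set X} (ha : MeasurableSet a) (T : Finset Ξ)
    (hT : ∀ t ∈ T, und ν (insert (A t) (A '' Iio t)) a ≤ und ν (A '' Iio t) a / 2) :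
    ∀ G : Set (Set X), (∀ B ∈ G, MeasurableSet B) → (∀ t ∈ T, A '' Iic t ⊆ G) →
      und ν G a ≤ ν univ / 2 ^ T.card := by
  induction T using Finset.induction_on_max with
  | empty =>
    intro G _ _
    rw [Finset.card_empty, pow_zero, div_one]
    exact measure_mono (subset_univ _)
  | insert t T' hlt ih =>
    intro G hG hGT
    have hnot : t ∉ T' := fun h => lt_irrefl _ (hlt t h)
    have h1 : und ν G a ≤ und ν (insert (A t) (A '' Iio t)) a := by
      refine hmono X ν _ _ a ?_ hG ha
      refine Subset.trans ?_ (hGT t (Finset.mem_insert_self _ _))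
      refine insert_subset ⟨t, le_refl t, rfl⟩ ?_
      exact image_mono fun x hx => le_of_lt hx
    have h2 : und ν (A '' Iio t) a ≤ ν univ / 2 ^ T'.card := by
      refine ih (fun s hs => hT s (Finset.mem_insert_of_mem hs)) _ ?_ ?_
      · rintro B ⟨i, _, rfl⟩
        exact hA i
      · intro s hs
        exact image_mono fun x hx => lt_of_le_of_lt hx (hlt s hs)
    calc und ν G a ≤ und ν (insert (A t) (A '' Iio t)) a := h1
      _ ≤ und ν (A '' Iio t) a / 2 := hT t (Finset.mem_insert_self _ _)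
      _ ≤ ν univ / 2 ^ T'.card / 2 := by gcongr
      _ = ν univ / 2 ^ (insert t T').card := by
        rw [Finset.card_insert_of_notMem hnot, pow_succ, div_eq_mul_inv, div_eq_mul_inv,
          div_eq_mul_inv, mul_assoc, ← ENNReal.mul_inv]
        · left
          exact pow_ne_zero _ two_ne_zero
        · right
          exact two_ne_zero

end Rec

open Rec in
/-- Piece MS-R. -/
theorem stmtRec (h : StmtStep.{u}) (h2 : StmtUndMono.{u}) : StmtRec.{u} := by
  intro X m0 ν _ κ hκ hnow F0 hF0 hF0κ hgen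
  -- the index set
  let Ξ : Type u := κ.ord.ToType
  have hΞ : #Ξ = κ := Cardinal.mk_ord_toType κ
  have hinf : Infinite Ξ := by
    rw [Cardinal.infinite_iff, hΞ]
    exact hκ
  have hseg : ∀ i : Ξ, #(Iio i) < κ := fun i => by
    have h7 := Cardinal.mk_Iio_lt i (by simp [Ξ])
    rwa [hΞ] at h7
  -- the enumeration
  have hemb : Nonempty ((F0 × ℕ) ↪ Ξ) := by
    rw [← Cardinal.lift_mk_le']
    simp only [Cardinal.mk_prod, Cardinal.lift_id, Cardinal.lift_uzero, Cardinal.mk_nat,
      Cardinal.lift_aleph0, hΞ]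
    calc #F0 * ℵ₀ ≤ κ * κ := mul_le_mul' hF0κ hκ
      _ = κ := Cardinal.mul_eq_self hκ
  obtain ⟨j⟩ := hemb
  classical
  let c : Ξ → Set X := fun ξ => if hp : ∃ p : F0 × ℕ, j p = ξ then (hp.choose.1 : Set X) else ∅
  have hc : ∀ p : F0 × ℕ, c (j p) = p.1 := by
    intro p
    have hp : ∃ q : F0 × ℕ, j q = j p := ⟨p, rfl⟩
    have : c (j p) = (hp.choose.1 : Set X) := dif_pos hp
    rw [this, j.injective hp.choose_spec]
  have hcm : ∀ ξ, MeasurableSet (c ξ) := by
    intro ξ
    by_cases hp : ∃ p : F0 × ℕ, j p = ξ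
    · obtain ⟨p, rfl⟩ := hp
      rw [hc]
      exact hF0 _ p.1.2
    · have : c ξ = ∅ := dif_neg hp
      rw [this]
      exact MeasurableSet.empty
  set A : Ξ → Set X := fam ν c with hAdef
  have hA : ∀ i, MeasurableSet (A i) := fam_meas ν c
  have hFm : ∀ ξ, ∀ B ∈ A '' Iio ξ, MeasurableSet B := by
    rintro ξ B ⟨i, _, rfl⟩
    exact hA i
  have hstep : ∀ ξ, StepP ν (A '' Iio ξ) (c ξ) (A ξ) := by
    intro ξ
    have e : A ξ = st ν (A '' Iio ξ) (c ξ) := fam_eq ν c ξ
    rw [e]
    refine st_spec (h X ν (A '' Iio ξ) (c ξ) (hFm ξ) (hcm ξ) (hnow _ ?_ ?_))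
    · rintro B (rfl | hB)
      · exact hcm ξ
      · exact hFm ξ B hB
    · calc #(insert (c ξ) (A '' Iio ξ) : Set (Set X)) ≤ #(A '' Iio ξ) + 1 :=
            Cardinal.mk_insert_le
        _ < κ := Cardinal.add_lt_of_lt hκ (lt_of_le_of_lt Cardinal.mk_image_le (hseg ξ))
            (lt_of_lt_of_le Cardinal.one_lt_aleph0 hκ)
  refine ⟨Ξ, A, hinf, hA, ?_, ?_⟩
  · -- the integrals
    intro S hS
    let ξ := S.max' hS
    have hξ : ξ ∈ S := S.max'_mem hS
    have e : ∀ x, walsh A S x = sg (A ξ) x * walsh A (S.erase ξ) x := by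
      intro x
      unfold walsh
      rw [Finset.mul_prod_erase S (fun i => sg (A i) x) hξ]
    simp_rw [e]
    refine integral_zero (MeasurableSpace.generateFrom_le (hFm ξ)) (hA ξ) (hstep ξ).1
      (walsh_measurable _ _ fun i hi => ?_) (fun x => (abs_walsh _ _ x).le)
    refine MeasurableSpace.measurableSet_generateFrom ⟨i, ?_, rfl⟩
    exact lt_of_le_of_ne (S.le_max' i (Finset.mem_of_mem_erase hi)) (Finset.ne_of_mem_erase hi)
  · -- generation
    have hrm : ∀ B ∈ range A, MeasurableSet B := by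
      rintro B ⟨i, rfl⟩
      exact hA i
    have hund : ∀ a ∈ F0, und ν (range A) a = 0 := by
      intro a ha
      have hn : ∀ n : ℕ, und ν (range A) a ≤ ν univ / 2 ^ n := by
        intro n
        have hinj : Function.Injective fun k : ℕ => j (⟨a, ha⟩, k) := by
          intro k l hkl
          have := j.injective hkl
          exact (Prod.mk.inj this).2
        have hcard : ((Finset.range n).image fun k : ℕ => j (⟨a, ha⟩, k)).card = n := by
          rw [Finset.card_image_of_injective _ hinj, Finset.card_range]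
        have hv : ∀ t ∈ (Finset.range n).image fun k : ℕ => j (⟨a, ha⟩, k),
            und ν (insert (A t) (A '' Iio t)) a ≤ und ν (A '' Iio t) a / 2 := by
          intro t ht
          obtain ⟨k, _, rfl⟩ := Finset.mem_image.1 ht
          have h3 := (hstep (j (⟨a, ha⟩, k))).2
          rw [hc] at h3
          exact h3
        have h8 := und_le (ν := ν) h2 A hA (hF0 a ha) _ hv (range A) hrm
          (fun t _ => image_subset_range _ _)
        rwa [hcard] at h8
      have htend : Tendsto (fun n : ℕ => ν univ / 2 ^ n) atTop (𝓝 0) := by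
        have h4 : Tendsto (fun n : ℕ => ν univ * (2⁻¹ : ℝ≥0∞) ^ n) atTop (𝓝 (ν univ * 0)) := by
          refine ENNReal.Tendsto.const_mul
            (ENNReal.tendsto_pow_atTop_nhds_zero_of_lt_one ?_) (Or.inr (measure_ne_top _ _))
          exact ENNReal.inv_lt_one.2 ENNReal.one_lt_two
        rw [mul_zero] at h4
        refine h4.congr fun n => ?_
        rw [div_eq_mul_inv, ENNReal.inv_pow]
      exact le_antisymm (ge_of_tendsto' htend hn) zero_le
    have hle : MeasurableSpace.generateFrom F0 ≤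
        eventuallyMeasurableSpace (MeasurableSpace.generateFrom (range A)) (ae ν) := by
      refine MeasurableSpace.generateFrom_le fun a ha => ?_
      obtain ⟨E, hE, hE'⟩ := exists_of_und_zero hrm (hF0 a ha) (hund a ha)
      exact ⟨E, hE, hE'⟩
    intro D hD
    obtain ⟨E, hE, hDE⟩ := hgen D hD
    obtain ⟨E', hE', hEE'⟩ := hle E hE
    exact ⟨E', hE', hDE.trans hEE'⟩

end Pool.Agent.R229.MS
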