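import Pool.Agent.R229.MS.Stm

/-! Piece MS-S of the project MS: the one step lemma. -/

set_option autoImplicit false

namespace Pool.Agent.R229.MS

open MeasureTheory Filter Topology Set
open scoped InnerProductSpace ENNReal NNReal Cardinal

universe u

namespace Stp

lemma condExp_eq_of {X : Type u} [m0 : MeasurableSpace X] {ν : Measure X} [IsFiniteMeasure ν]
    {m : MeasurableSpace X} (hm : m ≤ m0) {D a : Set X} (hD : MeasurableSet[m] D)
    (ha : MeasurableSet[m0] a) (c : ℝ)
    (h : ∀ᵐ x ∂ν, x ∈ D → a.indicator (fun _ => (1 : ℝ)) x = c) :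
    ∀ᵐ x ∂ν, x ∈ D → (ν[a.indicator (fun _ => (1 : ℝ)) | m]) x = c := by
  have hia : Integrable (a.indicator (fun _ => (1 : ℝ))) ν := (integrable_const 1).indicator ha
  have h1 := condExp_indicator (m := m) hia hD
  have h2 := condExp_indicator (m := m) (integrable_const (μ := ν) c) hD
  have h3 : D.indicator (a.indicator (fun _ => (1 : ℝ))) =ᵐ[ν] D.indicator (fun _ => c) := by
    filter_upwards [h] with x hx
    by_cases hxD : x ∈ D
    · rw [indicator_of_mem hxD, indicator_of_mem hxD, hx hxD]
    · rw [indicator_of_notMem hxD, indicator_of_notMem hxD]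
  have h4 := condExp_congr_ae (m := m) h3
  filter_upwards [h1, h2, h4] with x e1 e2 e4 hxD
  rw [indicator_of_mem hxD] at e1 e2
  rw [← e1, e4, e2, condExp_const hm]

lemma real_inter {X : Type u} [m0 : MeasurableSpace X] {ν : Measure X} [IsFiniteMeasure ν]
    {m : MeasurableSpace X} (hm : m ≤ m0) {A V : Set X} (hA : MeasurableSet[m0] A)
    (hV : MeasurableSet[m] V) {g : X → ℝ}
    (h : ν[A.indicator (fun _ => (1 : ℝ)) | m] =ᵐ[ν] g) :
    ν.real (V ∩ A) = ∫ x in V, g x ∂ν := by
  have hiA : Integrable (A.indicator (fun _ => (1 : ℝ))) ν := (integrable_const 1).indicator hA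
  have h1 : ∫ x in V, g x ∂ν =
      ∫ x in V, (ν[A.indicator (fun _ => (1 : ℝ)) | m]) x ∂ν :=
    setIntegral_congr_ae (hm _ hV) (by filter_upwards [h] with x hx _ using hx.symm)
  rw [h1, setIntegral_condExp hm hiA hV, setIntegral_indicator hA, setIntegral_const]
  simp

lemma ae_of_real {X : Type u} [m0 : MeasurableSpace X] {ν : Measure X} [IsFiniteMeasure ν]
    {D : Set X} (h : ν.real D = 0) : ∀ᵐ x ∂ν, x ∉ D := by
  rw [measureReal_eq_zero_iff] at h
  exact measure_eq_zero_iff_ae_notMem.1 h

lemma real_diff {X : Type u} [m0 : MeasurableSpace X] {ν : Measure X} [IsFiniteMeasure ν]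
    {D A : Set X} (hA : MeasurableSet A) : ν.real (D \ A) = ν.real D - ν.real (D ∩ A) := by
  have := measureReal_inter_add_sdiff (μ := ν) (s := D) hA
  linarith

lemma det0 {X : Type u} [m0 : MeasurableSpace X] {ν : Measure X} [IsFiniteMeasure ν]
    {m : MeasurableSpace X} (hm : m ≤ m0) {a : Set X} (ha : MeasurableSet[m0] a) :
    ∀ᵐ x ∂ν, (ν[a.indicator (fun _ => (1 : ℝ)) | m]) x ≤ 0 →
      a.indicator (fun _ => (1 : ℝ)) x = 0 := by
  set e : X → ℝ := ν[a.indicator (fun _ => (1 : ℝ)) | m] with he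
  have hem : Measurable[m] e := stronglyMeasurable_condExp.measurable
  have hE : MeasurableSet[m] {x | e x ≤ 0} := @measurableSet_le _ _ _ _ _ m _ _ _ _ _
    hem measurable_const
  have h1 : ν.real ({x | e x ≤ 0} ∩ a) = ∫ x in {x | e x ≤ 0}, e x ∂ν :=
    real_inter (m0 := m0) hm ha hE (EventuallyEq.refl _ _)
  have h2 : ∫ x in {x | e x ≤ 0}, e x ∂ν ≤ 0 :=
    setIntegral_nonpos (hm _ hE) fun x hx => hx
  have h3 : ν.real ({x | e x ≤ 0} ∩ a) = 0 :=
    le_antisymm (h1.le.trans h2) measureReal_nonneg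
  filter_upwards [ae_of_real (m0 := m0) h3] with x hx hx'
  exact indicator_of_notMem (fun hxa => hx ⟨hx', hxa⟩) _

lemma det1 {X : Type u} [m0 : MeasurableSpace X] {ν : Measure X} [IsFiniteMeasure ν]
    {m : MeasurableSpace X} (hm : m ≤ m0) {a : Set X} (ha : MeasurableSet[m0] a) :
    ∀ᵐ x ∂ν, 1 ≤ (ν[a.indicator (fun _ => (1 : ℝ)) | m]) x →
      a.indicator (fun _ => (1 : ℝ)) x = 1 := by
  set e : X → ℝ := ν[a.indicator (fun _ => (1 : ℝ)) | m] with he
  have hem : Measurable[m] e := stronglyMeasurable_condExp.measurable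
  have hE : MeasurableSet[m] {x | 1 ≤ e x} := @measurableSet_le _ _ _ _ _ m _ _ _ _ _
    measurable_const hem
  have hie : Integrable e ν := integrable_condExp
  have h1 : ν.real ({x | 1 ≤ e x} ∩ a) = ∫ x in {x | 1 ≤ e x}, e x ∂ν :=
    real_inter (m0 := m0) hm ha hE (EventuallyEq.refl _ _)
  have h2 : ∫ x in {x | 1 ≤ e x}, (1 : ℝ) ∂ν ≤ ∫ x in {x | 1 ≤ e x}, e x ∂ν :=
    setIntegral_mono_on (integrable_const _).integrableOn hie.integrableOn (hm _ hE)
      fun x hx => hx
  have h3 : ν.real ({x | 1 ≤ e x} \ a) = 0 := by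
    rw [real_diff (m0 := m0) ha, h1]
    rw [setIntegral_const] at h2
    have h4 : ν.real {x | 1 ≤ e x} ≤ ∫ x in {x | 1 ≤ e x}, e x ∂ν := by simpa using h2
    have h5 : ν.real ({x | 1 ≤ e x} ∩ a) ≤ ν.real {x | 1 ≤ e x} :=
      measureReal_mono inter_subset_left
    linarith
  filter_upwards [ae_of_real (m0 := m0) h3] with x hx hx'
  refine indicator_of_mem ?_ _
  by_contra hxa
  exact hx ⟨hx', hxa⟩

end Stp

open Stp in
/-- Piece MS-M1. -/
theorem stmtUndMono : StmtUndMono.{u} := by
  intro X m0 ν _ F G a hFG hG ha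
  have hm : MeasurableSpace.generateFrom G ≤ m0 := MeasurableSpace.generateFrom_le hG
  have hm' : MeasurableSpace.generateFrom F ≤ m0 :=
    MeasurableSpace.generateFrom_le fun A hA => hG A (hFG hA)
  have hmm : MeasurableSpace.generateFrom F ≤ MeasurableSpace.generateFrom G :=
    MeasurableSpace.generateFrom_mono hFG
  set e : X → ℝ := ν[a.indicator (fun _ => (1 : ℝ)) | MeasurableSpace.generateFrom F] with he
  have hem : Measurable[MeasurableSpace.generateFrom F] e :=
    stronglyMeasurable_condExp.measurable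
  have hE0 : MeasurableSet[MeasurableSpace.generateFrom F] {x | e x ≤ 0} :=
    @measurableSet_le _ _ _ _ _ (MeasurableSpace.generateFrom F) _ _ _ _ _ hem measurable_const
  have hE1 : MeasurableSet[MeasurableSpace.generateFrom F] {x | 1 ≤ e x} :=
    @measurableSet_le _ _ _ _ _ (MeasurableSpace.generateFrom F) _ _ _ _ _ measurable_const hem
  have h0 := condExp_eq_of (ν := ν) hm (hmm _ hE0) ha 0 (det0 hm' ha)
  have h1 := condExp_eq_of (ν := ν) hm (hmm _ hE1) ha 1 (det1 hm' ha)
  unfold und
  refine measure_mono_ae ?_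
  filter_upwards [h0, h1] with x hx0 hx1 hx
  constructor
  · by_contra h
    have := hx0 (not_lt.1 h)
    exact hx.1.ne' this
  · by_contra h
    have := hx1 (not_lt.1 h)
    exact hx.2.ne this

open Stp in
/-- Piece MS-S. -/
theorem stmtStep (hG : StmtG.{u}) : StmtStep.{u} := by
  intro X m0 ν _ F a hF ha hnow
  have hF' : ∀ A ∈ insert a F, MeasurableSet A := by
    rintro A (rfl | hA)
    · exact ha
    · exact hF A hA
  have hm : MeasurableSpace.generateFrom F ≤ m0 := MeasurableSpace.generateFrom_le hF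
  have hm' : MeasurableSpace.generateFrom (insert a F) ≤ m0 :=
    MeasurableSpace.generateFrom_le hF'
  have hmm : MeasurableSpace.generateFrom F ≤ MeasurableSpace.generateFrom (insert a F) :=
    MeasurableSpace.generateFrom_mono (subset_insert _ _)
  have ham : MeasurableSet[MeasurableSpace.generateFrom (insert a F)] a :=
    MeasurableSpace.measurableSet_generateFrom (mem_insert _ _)
  have hia : Integrable (a.indicator (fun _ => (1 : ℝ))) ν := (integrable_const 1).indicator ha
  set m := MeasurableSpace.generateFrom F with hmdef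
  set m' := MeasurableSpace.generateFrom (insert a F) with hmdef'
  set e0 : X → ℝ := ν[a.indicator (fun _ => (1 : ℝ)) | m] with he0
  have he0m : Measurable[m] e0 := stronglyMeasurable_condExp.measurable
  set e : X → ℝ := fun x => max 0 (min (e0 x) 1) with he
  have hem : Measurable[m] e := measurable_const.max (he0m.min measurable_const)
  have hnn : ∀ x, 0 ≤ e x := fun x => le_max_left _ _
  have hle1 : ∀ x, e x ≤ 1 := fun x => max_le zero_le_one (min_le_right _ _)
  have hpos : ∀ᵐ x ∂ν, 0 ≤ e0 x := by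
    refine condExp_nonneg (ae_of_all _ fun x => ?_)
    exact Set.indicator_nonneg (fun _ _ => zero_le_one) x
  have hle : ∀ᵐ x ∂ν, e0 x ≤ 1 := by
    have h1 : e0 ≤ᵐ[ν] ν[(fun _ => (1 : ℝ)) | m] := by
      refine condExp_mono hia (integrable_const 1) (ae_of_all _ fun x => ?_)
      exact Set.indicator_le_self' (fun _ _ => zero_le_one) x
    rw [condExp_const hm] at h1
    exact h1
  have hee : e0 =ᵐ[ν] e := by
    filter_upwards [hpos, hle] with x h1 h2
    rw [he]
    simp only
    rw [min_eq_left h2, max_eq_right h1]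
  -- the function g
  have hP : MeasurableSet[m] {x | 1 / 2 ≤ e x} :=
    @measurableSet_le _ _ _ _ _ m _ _ _ _ _ measurable_const hem
  classical
  set p : X → ℝ := fun x => if 1 / 2 ≤ e x then 1 / (2 * e x) else 1 / 2 / (1 - e x) with hp
  set q : X → ℝ := fun x => if 1 / 2 ≤ e x then 0 else (1 / 2 - e x) / (1 - e x) with hq
  have hpm : Measurable[m] p :=
    Measurable.ite hP (measurable_const.div (measurable_const.mul hem))
      (measurable_const.div (measurable_const.sub hem))
  have hqm : Measurable[m] q :=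
    Measurable.ite hP measurable_const
      ((measurable_const.sub hem).div (measurable_const.sub hem))
  have hp0 : ∀ x, 0 ≤ p x ∧ p x ≤ 1 := by
    intro x
    rw [hp]
    simp only
    split_ifs with h
    · constructor
      · have := hnn x
        positivity
      · rw [div_le_one (by linarith)]
        linarith
    · have h' := not_le.1 h
      have h2 : 0 < 1 - e x := by linarith
      constructor
      · exact div_nonneg (by norm_num) h2.le
      · rw [div_le_one h2]
        linarith
  have hq0 : ∀ x, 0 ≤ q x ∧ p x + q x ≤ 1 := by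
    intro x
    rw [hp, hq]
    simp only
    split_ifs with h
    · constructor
      · exact le_refl _
      · rw [add_zero, div_le_one (by linarith)]
        linarith
    · have h' := not_le.1 h
      have h2 : 0 < 1 - e x := by linarith
      constructor
      · exact div_nonneg (by linarith) h2.le
      · rw [← add_div, div_le_one h2]
        linarith
  have hpe : ∀ x, p x * e x + q x = 1 / 2 := by
    intro x
    rw [hp, hq]
    simp only
    split_ifs with h
    · have : e x ≠ 0 := by
        have : (0 : ℝ) < e x := by linarith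
        exact this.ne'
      field_simp
      ring
    · have h' := not_le.1 h
      have h2 : 1 - e x ≠ 0 := by
        have : (0 : ℝ) < 1 - e x := by linarith
        exact this.ne'
      field_simp
      ring
  set g : X → ℝ := fun x => a.indicator (fun _ => (1 : ℝ)) x * p x + q x with hg
  have hgm : Measurable[m'] g :=
    ((measurable_const.indicator ham).mul (hpm.mono hmm le_rfl)).add (hqm.mono hmm le_rfl)
  have hg0 : ∀ x, 0 ≤ g x := by
    intro x
    rw [hg]
    simp only
    have h1 := hp0 x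
    have h2 := hq0 x
    by_cases hx : x ∈ a
    · rw [indicator_of_mem hx]
      linarith
    · rw [indicator_of_notMem hx]
      linarith
  have hg1 : ∀ x, g x ≤ 1 := by
    intro x
    rw [hg]
    simp only
    have h1 := hp0 x
    have h2 := hq0 x
    by_cases hx : x ∈ a
    · rw [indicator_of_mem hx]
      linarith
    · rw [indicator_of_notMem hx]
      linarith
  obtain ⟨A, hA, hAg⟩ := hG X (m0 := m0) ν (insert a F) hF' hnow g hgm hg0 hg1
  have hiA : Integrable (A.indicator (fun _ => (1 : ℝ))) ν := (integrable_const 1).indicator hA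
  have hip : Integrable p ν :=
    Integrable.of_bound (hpm.mono hm le_rfl).aestronglyMeasurable 1
      (ae_of_all _ fun x => by
        rw [Real.norm_eq_abs, abs_le]
        exact ⟨by linarith [(hp0 x).1], (hp0 x).2⟩)
  have hiq : Integrable q ν :=
    Integrable.of_bound (hqm.mono hm le_rfl).aestronglyMeasurable 1
      (ae_of_all _ fun x => by
        rw [Real.norm_eq_abs, abs_le]
        exact ⟨by linarith [(hq0 x).1], by linarith [(hq0 x).2, (hp0 x).1]⟩)
  -- conditional expectation with respect to m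
  have hhalf : ν[A.indicator (fun _ => (1 : ℝ)) | m] =ᵐ[ν] fun _ => 1 / 2 := by
    have t1 : ν[ν[A.indicator (fun _ => (1 : ℝ)) | m'] | m] =ᵐ[ν]
        ν[A.indicator (fun _ => (1 : ℝ)) | m] := condExp_condExp_of_le hmm hm'
    have t2 : ν[ν[A.indicator (fun _ => (1 : ℝ)) | m'] | m] =ᵐ[ν] ν[g | m] :=
      condExp_congr_ae hAg
    have hiap : Integrable (p * a.indicator (fun _ => (1 : ℝ))) ν := by
      have : p * a.indicator (fun _ => (1 : ℝ)) = a.indicator p := by
        funext x
        rw [Pi.mul_apply]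
        by_cases hx : x ∈ a
        · rw [indicator_of_mem hx, indicator_of_mem hx, mul_one]
        · rw [indicator_of_notMem hx, indicator_of_notMem hx, mul_zero]
      rw [this]
      exact hip.indicator ha
    have t3 : g = p * a.indicator (fun _ => (1 : ℝ)) + q := by
      funext x
      rw [Pi.add_apply, Pi.mul_apply, hg]
      ring
    have t4 : ν[g | m] =ᵐ[ν] ν[p * a.indicator (fun _ => (1 : ℝ)) | m] + ν[q | m] := by
      rw [t3]
      exact condExp_add hiap hiq m
    have t5 : ν[p * a.indicator (fun _ => (1 : ℝ)) | m] =ᵐ[ν] p * e0 :=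
      condExp_mul_of_stronglyMeasurable_left hpm.stronglyMeasurable hiap hia
    have t6 : ν[q | m] = q := condExp_of_stronglyMeasurable hm hqm.stronglyMeasurable hiq
    filter_upwards [t1, t2, t4, t5, hee] with x s1 s2 s4 s5 s6
    rw [← s1, s2, s4, Pi.add_apply, s5, t6, Pi.mul_apply, s6]
    exact hpe x
  refine ⟨A, hA, hhalf, ?_⟩
  -- the undetermined set
  have hPm' : MeasurableSet[m'] {x | 1 / 2 ≤ e x} := hmm _ hP
  have c1 : ∀ᵐ x ∂ν, x ∈ {x | 1 / 2 ≤ e x} ∩ A → a.indicator (fun _ => (1 : ℝ)) x = 1 := by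
    have h1 : ν.real (({x | 1 / 2 ≤ e x} \ a) ∩ A) = 0 := by
      rw [real_inter (m0 := m0) hm' hA (hPm'.diff ham) hAg]
      have : ∫ x in {x | 1 / 2 ≤ e x} \ a, g x ∂ν =
          ∫ x in {x | 1 / 2 ≤ e x} \ a, (0 : ℝ) ∂ν := by
        refine setIntegral_congr_fun (hm' _ (hPm'.diff ham)) ?_
        intro x hx
        rw [hg]
        simp only
        rw [indicator_of_notMem hx.2, hq]
        simp only
        rw [if_pos (show 1 / 2 ≤ e x from hx.1)]
        ring
      rw [this]
      simp
    filter_upwards [ae_of_real (m0 := m0) h1] with x hx hx'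
    refine indicator_of_mem ?_ _
    by_contra hxa
    exact hx ⟨⟨hx'.1, hxa⟩, hx'.2⟩
  have c0 : ∀ᵐ x ∂ν, x ∈ {x | 1 / 2 ≤ e x}ᶜ \ A → a.indicator (fun _ => (1 : ℝ)) x = 0 := by
    have h1 : ν.real (({x | 1 / 2 ≤ e x}ᶜ ∩ a) \ A) = 0 := by
      rw [real_diff (m0 := m0) hA, real_inter (m0 := m0) hm' hA (hPm'.compl.inter ham) hAg]
      have : ∫ x in {x | 1 / 2 ≤ e x}ᶜ ∩ a, g x ∂ν =
          ∫ x in {x | 1 / 2 ≤ e x}ᶜ ∩ a, (1 : ℝ) ∂ν := by
        refine setIntegral_congr_fun (hm' _ (hPm'.compl.inter ham)) ?_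
        intro x hx
        have hx1 : ¬ (1 / 2 ≤ e x) := hx.1
        have h2 : 1 - e x ≠ 0 := by
          have : (0 : ℝ) < 1 - e x := by linarith [not_le.1 hx1]
          exact this.ne'
        rw [hg]
        simp only
        rw [indicator_of_mem hx.2, hq, hp]
        simp only
        rw [if_neg hx1, if_neg hx1]
        field_simp
        ring
      rw [this, setIntegral_const]
      simp
    filter_upwards [ae_of_real (m0 := m0) h1] with x hx hx'
    refine indicator_of_notMem ?_ _
    intro hxa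
    exact hx ⟨⟨hx'.1, hxa⟩, hx'.2⟩
  have hF'' : ∀ B ∈ insert A F, MeasurableSet[m0] B := by
    rintro B (rfl | hB)
    · exact hA
    · exact hF B hB
  have hm'' : MeasurableSpace.generateFrom (insert A F) ≤ m0 :=
    MeasurableSpace.generateFrom_le hF''
  have hmm'' : m ≤ MeasurableSpace.generateFrom (insert A F) :=
    MeasurableSpace.generateFrom_mono (subset_insert _ _)
  have hAm'' : MeasurableSet[MeasurableSpace.generateFrom (insert A F)] A :=
    MeasurableSpace.measurableSet_generateFrom (mem_insert _ _)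
  have hE0 : MeasurableSet[m] {x | e0 x ≤ 0} :=
    @measurableSet_le _ _ _ _ _ m _ _ _ _ _ he0m measurable_const
  have hE1 : MeasurableSet[m] {x | 1 ≤ e0 x} :=
    @measurableSet_le _ _ _ _ _ m _ _ _ _ _ measurable_const he0m
  have d0 := condExp_eq_of (m0 := m0) (ν := ν) hm'' (hmm'' _ hE0) ha 0 (det0 (m0 := m0) hm ha)
  have d1 := condExp_eq_of (m0 := m0) (ν := ν) hm'' (hmm'' _ hE1) ha 1 (det1 (m0 := m0) hm ha)
  have d2 := condExp_eq_of (m0 := m0) (ν := ν) hm'' ((hmm'' _ hP).inter hAm'') ha 1 c1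
  have d3 := condExp_eq_of (m0 := m0) (ν := ν) hm'' ((hmm'' _ hP).compl.diff hAm'') ha 0 c0
  set U : Set X := {x | 0 < e0 x ∧ e0 x < 1} with hU
  have hUm : MeasurableSet[m] U :=
    (@measurableSet_lt _ _ _ _ _ m _ _ _ _ _ measurable_const he0m).inter
      (@measurableSet_lt _ _ _ _ _ m _ _ _ _ _ he0m measurable_const)
  set P : Set X := {x | 1 / 2 ≤ e x} with hPdef
  have hsub : @und X m0 ν (insert A F) a ≤ ν ((U ∩ P) \ A ∪ (U \ P) ∩ A) := by
    unfold und
    refine measure_mono_ae ?_
    filter_upwards [d0, d1, d2, d3] with x k0 k1 k2 k3 hx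
    have hxU : x ∈ U := by
      constructor
      · by_contra h
        exact hx.1.ne' (k0 (not_lt.1 h))
      · by_contra h
        exact hx.2.ne (k1 (not_lt.1 h))
    by_cases hxP : x ∈ P
    · left
      refine ⟨⟨hxU, hxP⟩, fun hxA => hx.2.ne (k2 ⟨hxP, hxA⟩)⟩
    · right
      refine ⟨⟨hxU, hxP⟩, ?_⟩
      by_contra hxA
      exact hx.1.ne' (k3 ⟨hxP, hxA⟩)
  have hhalf' : ∀ V : Set X, MeasurableSet[m] V → ν.real (V ∩ A) = ν.real V / 2 := by
    intro V hV
    rw [real_inter (m0 := m0) hm hA hV hhalf, setIntegral_const, smul_eq_mul]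
    ring
  have r1 : ν.real ((U ∩ P) \ A) = ν.real (U ∩ P) / 2 := by
    rw [real_diff (m0 := m0) hA, hhalf' _ (hUm.inter hP)]
    ring
  have r2 : ν.real ((U \ P) ∩ A) = ν.real (U \ P) / 2 := hhalf' _ (hUm.diff hP)
  have r3 : ν.real (U ∩ P) + ν.real (U \ P) = ν.real U :=
    measureReal_inter_add_sdiff (hm _ hP)
  have r4 : ν.real ((U ∩ P) \ A ∪ (U \ P) ∩ A) ≤ ν.real U / 2 := by
    calc _ ≤ ν.real ((U ∩ P) \ A) + ν.real ((U \ P) ∩ A) := measureReal_union_le _ _
      _ = ν.real U / 2 := by rw [r1, r2, ← r3]; ring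
  refine hsub.trans ?_
  have r5 : @und X m0 ν F a = ν U := rfl
  rw [r5]
  rw [← ENNReal.ofReal_toReal (measure_ne_top ν ((U ∩ P) \ A ∪ (U \ P) ∩ A)),
    ← ENNReal.ofReal_toReal (measure_ne_top ν U)]
  have r6 : ENNReal.ofReal (ν U).toReal / 2 = ENNReal.ofReal ((ν U).toReal / 2) := by
    rw [ENNReal.ofReal_div_of_pos two_pos]
    norm_num
  rw [r6]
  exact ENNReal.ofReal_le_ofReal r4

end Pool.Agent.R229.MS
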